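import Pool.Agent.H27.DelI

namespace Pool.Agent.Results.MP_c292ad_nt.SumR
open Finset Pool.Agent.H27.DelA Pool.Agent.H27.DelG Pool.Agent.H27.DelH Pool.Agent.H27.DelI

/-- `R_n` -/
def R (n : ℕ) : ℚ := ∑ k ∈ range (n + 1),
  ((n + k).choose (2 * k) : ℚ) * ((2 * k).choose k : ℚ) * (1 / (2 * (k : ℚ) - 1))

theorem result (n : ℕ) (hn : 0 < n) : (∀ l, ∃ z : ℤ, R l = z) ∧
    ∃ z : ℤ, ∑ k ∈ range n, (2 * (k : ℚ) + 1) * R k ^ 2 = (n : ℚ) ^ 2 + 16 * (n : ℚ) * (z : ℚ) := by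
  have h := final 0 4 (by simp [eh, FF, cv, Pool.Agent.H27.DelC.conv, ww, cc, KO]) div0 R
    (fun l => Finset.sum_congr rfl fun i _ => by
      rw [phi_eq]; simp only [KO, ww]; push_cast; ring) n hn
  norm_num at h ⊢
  exact h

end Pool.Agent.Results.MP_c292ad_nt.SumR
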